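import Mathlib
import Pool.Agent.V11172.SeqGen

namespace Pool.Agent.Results.MP_8dcfbf_co.TypeBPair

open Pool.Agent.V11172.SeqGen

/-- *Regular type B sequences*: start with `(1)` or `(1,1)`; at each step attach at the left
end or at the right end a new term equal to the sum of a block `d_{p+1},…,d_q` of one or more
consecutive terms (anywhere in the current sequence). -/
inductive RegB : List ℕ → Prop
  | one : RegB [1]
  | base : RegB [1, 1]
  | left (d : List ℕ) (p q : ℕ) : RegB d → p < q → q ≤ d.length →
      RegB (((d.take q).drop p).sum :: d)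
  | right (d : List ℕ) (p q : ℕ) : RegB d → p < q → q ≤ d.length →
      RegB (d ++ [((d.take q).drop p).sum])

/-- `b(k_1,…,k_m)`: the least `n` such that some regular type B sequence of length `n` has a
permutation of `(k_1,…,k_m)` as a subsequence. (`ks.Subperm d` says that some permutation of the
list `ks` is a sublist of `d`.) -/
noncomputable def b (ks : List ℕ) : ℕ := sInf {n | ∃ d, RegB d ∧ d.length = n ∧ ks.Subperm d}

/-- all one-step extensions (type B) -/
def extB (d : List ℕ) : List (List ℕ) :=
  (List.range d.length).flatMap (fun q => (List.range (q + 1)).flatMap (fun p =>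
    [((d.take (q + 1)).drop p).sum :: d, d ++ [((d.take (q + 1)).drop p).sum]]))

lemma sum_block_le (d : List ℕ) (p q : ℕ) : ((d.take q).drop p).sum ≤ d.sum := by
  have h1 : ((d.take q).drop p).sum ≤ (d.take q).sum := by
    conv_rhs => rw [← List.take_append_drop p (d.take q)]
    rw [List.sum_append]; omega
  have h2 : (d.take q).sum ≤ d.sum := by
    conv_rhs => rw [← List.take_append_drop q d]
    rw [List.sum_append]; omega
  omega

lemma mem_extB {d : List ℕ} {p q : ℕ} (h1 : p < q) (h2 : q ≤ d.length) :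
    (((d.take q).drop p).sum :: d) ∈ extB d ∧ (d ++ [((d.take q).drop p).sum]) ∈ extB d := by
  constructor <;>
  · unfold extB
    rw [List.mem_flatMap]
    refine ⟨q - 1, by rw [List.mem_range]; omega, ?_⟩
    rw [List.mem_flatMap]
    refine ⟨p, by rw [List.mem_range]; omega, ?_⟩
    rw [Nat.sub_add_cancel (by omega)]; simp

lemma RegB.len {d : List ℕ} (h : RegB d) : 1 ≤ d.length := by
  induction h with
  | one => simp
  | base => simp
  | left d p q _ _ _ ih => simp
  | right d p q _ _ _ ih => simp

lemma RegB.two {d : List ℕ} (h : RegB d) : d = [1] ∨ 2 ≤ d.length := by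
  cases h with
  | one => left; rfl
  | base => right; simp
  | left d p q h _ _ => right; have := h.len; simp; omega
  | right d p q h _ _ => right; have := h.len; simp; omega

lemma goodB : Good RegB extB where
  step := by
    intro d hd hl
    cases hd with
    | one => simp at hl
    | base => simp at hl
    | left d p q h h1 h2 => exact ⟨d, h, (mem_extB h1 h2).1⟩
    | right d p q h h1 h2 => exact ⟨d, h, (mem_extB h1 h2).2⟩
  base := by
    intro d hd hl
    cases hd with
    | one => simp
    | base => simp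
    | left d p q h h1 h2 =>
      have h0 := h.two
      rcases h0 with rfl | h0
      · have hp : p = 0 := by simp at h2; omega
        have hq : q = 1 := by simp at h2; omega
        subst hp hq; simp
      · simp at hl; omega
    | right d p q h h1 h2 =>
      have h0 := h.two
      rcases h0 with rfl | h0
      · have hp : p = 0 := by simp at h2; omega
        have hq : q = 1 := by simp at h2; omega
        subst hp hq; simp
      · simp at hl; omega
  base2 := by
    intro d hd hl
    cases hd with
    | one => simp at hl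
    | base => rfl
    | left d p q h h1 h2 =>
      have h0 := h.two
      rcases h0 with rfl | h0
      · have hp : p = 0 := by simp at h2; omega
        have hq : q = 1 := by simp at h2; omega
        subst hp hq; rfl
      · simp at hl; omega
    | right d p q h h1 h2 =>
      have h0 := h.two
      rcases h0 with rfl | h0
      · have hp : p = 0 := by simp at h2; omega
        have hq : q = 1 := by simp at h2; omega
        subst hp hq; rfl
      · simp at hl; omega
  shape := by
    intro d e he
    unfold extB at he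
    rw [List.mem_flatMap] at he
    obtain ⟨q, _, he⟩ := he
    rw [List.mem_flatMap] at he
    obtain ⟨p, _, hj⟩ := he
    simp only [List.mem_cons, List.not_mem_nil, or_false] at hj
    rcases hj with rfl | rfl
    · exact ⟨_, sum_block_le d _ _, Or.inl rfl⟩
    · exact ⟨_, sum_block_le d _ _, Or.inr rfl⟩

/-- pruning thresholds -/
def thr : ℕ → ℕ
  | 0 => 2
  | 1 => 4
  | 2 => 8
  | 3 => 15
  | 4 => 29
  | 5 => 57
  | n + 6 => 57 * 2 ^ (n + 1)

lemma thr_spec (n : ℕ) : 2 * thr n < thr (n + 1) + 2 := by
  rcases n with _ | _ | _ | _ | _ | _ | n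
  · decide
  · decide
  · decide
  · decide
  · decide
  · decide
  · change 2 * (57 * 2 ^ (n + 1)) < 57 * 2 ^ (n + 1 + 1) + 2
    rw [pow_succ 2 (n + 1)]; omega

set_option maxRecDepth 100000 in
lemma checkB : ∀ d ∈ L extB thr 5, ∀ e ∈ extB d, (57 ∈ e ∨ 62 ∈ e) → ∀ f ∈ extB e,
    ¬ (57 ∈ f ∧ 62 ∈ f) := by
  decide +kernel

lemma noB {d : List ℕ} (hd : RegB d) (hl : d.length ≤ 9) : ¬ (57 ∈ d ∧ 62 ∈ d) :=
  goodB.no_nine thr thr_spec (by norm_num) (by norm_num) (by norm_num) (by decide) (by decide)
    checkB hd hl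

lemma seq62 : RegB [32, 16, 8, 4, 2, 1, 1, 62] := by
  have h0 : RegB [1, 1] := RegB.base
  have h1 : RegB [2, 1, 1] := RegB.left _ 0 2 h0 (by simp) (by simp)
  have h2 : RegB [4, 2, 1, 1] := RegB.left _ 0 3 h1 (by simp) (by simp)
  have h3 : RegB [8, 4, 2, 1, 1] := RegB.left _ 0 4 h2 (by simp) (by simp)
  have h4 : RegB [16, 8, 4, 2, 1, 1] := RegB.left _ 0 5 h3 (by simp) (by simp)
  have h5 : RegB [32, 16, 8, 4, 2, 1, 1] := RegB.left _ 0 6 h4 (by simp) (by simp)
  have h6 : RegB [32, 16, 8, 4, 2, 1, 1, 62] := RegB.right _ 0 5 h5 (by simp) (by simp)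
  exact h6

lemma seqPair : RegB [1, 32, 16, 8, 4, 2, 1, 1, 62, 57] := by
  have h0 : RegB [1, 1] := RegB.base
  have h1 : RegB [2, 1, 1] := RegB.left _ 0 2 h0 (by simp) (by simp)
  have h2 : RegB [4, 2, 1, 1] := RegB.left _ 0 3 h1 (by simp) (by simp)
  have h3 : RegB [8, 4, 2, 1, 1] := RegB.left _ 0 4 h2 (by simp) (by simp)
  have h4 : RegB [16, 8, 4, 2, 1, 1] := RegB.left _ 0 5 h3 (by simp) (by simp)
  have h5 : RegB [32, 16, 8, 4, 2, 1, 1] := RegB.left _ 0 6 h4 (by simp) (by simp)
  have h6 : RegB [1, 32, 16, 8, 4, 2, 1, 1] := RegB.left _ 5 6 h5 (by simp) (by simp)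
  have h7 : RegB [1, 32, 16, 8, 4, 2, 1, 1, 62] := RegB.right _ 1 6 h6 (by simp) (by simp)
  have h8 : RegB [1, 32, 16, 8, 4, 2, 1, 1, 62, 57] := RegB.right _ 0 4 h7 (by simp) (by simp)
  exact h8

lemma b62 : b [62] = 8 := by
  unfold b
  apply le_antisymm
  · apply Nat.sInf_le
    exact ⟨_, seq62, rfl, List.subperm_of_subset (by decide) (by decide)⟩
  · refine le_csInf ?_ ?_
    · exact ⟨8, _, seq62, rfl, List.subperm_of_subset (by decide) (by decide)⟩
    rintro n ⟨d, hd, hl, hs⟩
    have hm : 62 ∈ d := hs.subset (by simp)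
    by_contra hn
    have := goodB.small 5 d hd (by omega) 62 hm
    omega

lemma bPair : b [57, 62] = 10 := by
  unfold b
  apply le_antisymm
  · apply Nat.sInf_le
    exact ⟨_, seqPair, rfl, List.subperm_of_subset (by decide) (by decide)⟩
  · refine le_csInf ?_ ?_
    · exact ⟨10, _, seqPair, rfl, List.subperm_of_subset (by decide) (by decide)⟩
    rintro n ⟨d, hd, hl, hs⟩
    by_contra hn
    exact noB hd (by omega) ⟨hs.subset (by simp), hs.subset (by simp)⟩

/-- `b(62) = 8` and `b(57,62) = 10`; hence the inequality `b(k₁,k₂) ≤ b(k₂) + 1` fails for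
`k₁ = 57 ≤ k₂ = 62`. -/
theorem result : (b [62] = 8 ∧ b [57, 62] = 10) ∧
    ¬ ∀ k₁ k₂ : ℕ, 0 < k₁ → k₁ ≤ k₂ → b [k₁, k₂] ≤ b [k₂] + 1 := by
  refine ⟨⟨b62, bPair⟩, fun h => ?_⟩
  have := h 57 62 (by norm_num) (by norm_num)
  rw [b62, bPair] at this
  omega

end Pool.Agent.Results.MP_8dcfbf_co.TypeBPair
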